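import Pool.Agent.X99.PAC.E

/-!
# Every geometrically integral scheme of finite type has a point
-/

set_option autoImplicit false
set_option linter.style.haveILetI false

open CategoryTheory CategoryTheory.Limits AlgebraicGeometry TensorProduct

namespace Pool.Agent.X99.PAC

theorem point_aux {K : Subfield ℂ} (hK : ∀ s, Over K s → Pr s → Solved K s) {A : Type} [CommRing A]
    [Nontrivial A] (φ : CommRingCat.of K ⟶ CommRingCat.of A) (hφ : φ.hom.FiniteType)
    {X : Scheme.{0}} (f : X ⟶ Spec (CommRingCat.of K)) (hf : GeometricallyIntegral f)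
    (i : Spec (CommRingCat.of A) ⟶ X) [IsOpenImmersion i] (hi : i ≫ f = Spec.map φ) :
    ∃ s : Spec (CommRingCat.of K) ⟶ X, s ≫ f = 𝟙 _ := by
  letI : Algebra K A := φ.hom.toAlgebra
  haveI : Algebra.FiniteType K A := hφ
  have hd : IsDomain (ℂ ⊗[K] A) := domain_of_geom f hf i hi
  obtain ⟨ψ⟩ := ring_point hK hd
  refine ⟨Spec.map (CommRingCat.ofHom ψ.toRingHom) ≫ i, ?_⟩
  rw [Category.assoc, hi, ← Spec.map_comp]
  have h1 : φ ≫ CommRingCat.ofHom ψ.toRingHom = 𝟙 (CommRingCat.of K) := by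
    ext k
    exact congrArg _ (ψ.commutes k)
  rw [h1, Spec.map_id]

/-- **points** -/
theorem point {K : Subfield ℂ} (hK : ∀ s, Over K s → Pr s → Solved K s) (X : Scheme.{0})
    (f : X ⟶ Spec (CommRingCat.of K)) (hf : GeometricallyIntegral f)
    (hft : LocallyOfFiniteType f) : ∃ s : Spec (CommRingCat.of K) ⟶ X, s ≫ f = 𝟙 _ := by
  have hs : Surjective f := inferInstance
  obtain ⟨y⟩ : Nonempty (Spec (CommRingCat.of K)) :=
    (inferInstance : Nonempty (PrimeSpectrum K))
  obtain ⟨x, -⟩ := hs.surj y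
  obtain ⟨W, hW, hxW, -⟩ := exists_isAffineOpen_mem_and_subset (x := x) (U := ⊤) trivial
  have hne : Nonempty W := ⟨⟨x, hxW⟩⟩
  have hnt : Nontrivial Γ(X, W) := by
    have h1 : Nonempty (Spec Γ(X, W)) := ⟨hW.isoSpec.hom ⟨x, hxW⟩⟩
    exact PrimeSpectrum.nonempty_iff_nontrivial.1 h1
  have h2 : LocallyOfFiniteType (hW.fromSpec ≫ f) := inferInstance
  have h3 : Spec.map (Spec.preimage (hW.fromSpec ≫ f)) = hW.fromSpec ≫ f := Spec.map_preimage _
  have h4 : (Spec.preimage (hW.fromSpec ≫ f)).hom.FiniteType := by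
    rw [← h3] at h2
    exact (HasRingHomProperty.Spec_iff (P := @LocallyOfFiniteType)).1 h2
  exact point_aux hK (A := Γ(X, W)) (Spec.preimage (hW.fromSpec ≫ f)) h4 f hf hW.fromSpec h3.symm

end Pool.Agent.X99.PAC
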