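import Mathlib

/-!
# One step of the construction of a countable field with points on all varieties
-/

set_option autoImplicit false
set_option linter.style.haveILetI false

open Cardinal MvPolynomial

namespace Pool.Agent.X99.PAC

/-- a countable extension of a countable field embeds into the complex numbers -/
theorem embed (K L : Type) [Field K] [Field L] [Algebra K L] [Algebra K ℂ] [Countable K]
    [Countable L] : Nonempty (L →ₐ[K] ℂ) := by
  obtain ⟨s, hs⟩ := exists_isTranscendenceBasis K L
  obtain ⟨t, ht⟩ := exists_isTranscendenceBasis K ℂ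
  have h1 : #ℂ = #t :=
    IsAlgClosed.cardinal_eq_cardinal_transcendence_basis_of_aleph0_lt' _ ht
      (Cardinal.mk_le_aleph0) (by rw [Cardinal.mk_complex]; exact Cardinal.aleph0_lt_continuum)
  have h2 : #s ≤ #t := by
    rw [← h1, Cardinal.mk_complex]
    exact (Cardinal.mk_le_aleph0).trans Cardinal.aleph0_le_continuum
  obtain ⟨e⟩ := h2
  have hw : AlgebraicIndependent K (fun i : s => ((e i : t) : ℂ)) := ht.1.comp e e.injective
  let ψ : Algebra.adjoin K (Set.range ((↑) : s → L)) →ₐ[K] ℂ :=
    (MvPolynomial.aeval (fun i : s => ((e i : t) : ℂ))).comp hs.1.aevalEquiv.symm.toAlgHom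
  have hψ : Function.Injective ψ := by
    have h3 : Function.Injective (MvPolynomial.aeval (R := K) (fun i : s => ((e i : t) : ℂ))) := hw
    exact h3.comp hs.1.aevalEquiv.symm.injective
  letI : Algebra (Algebra.adjoin K (Set.range ((↑) : s → L))) ℂ := ψ.toRingHom.toAlgebra
  haveI : Algebra.IsAlgebraic (Algebra.adjoin K (Set.range ((↑) : s → L))) L := hs.isAlgebraic
  haveI : FaithfulSMul (Algebra.adjoin K (Set.range ((↑) : s → L))) ℂ :=
    (faithfulSMul_iff_algebraMap_injective _ _).2 hψ
  haveI : IsScalarTower K (Algebra.adjoin K (Set.range ((↑) : s → L))) ℂ :=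
    IsScalarTower.of_algebraMap_eq fun x => (ψ.commutes x).symm
  exact ⟨(IsAlgClosed.lift (R := Algebra.adjoin K (Set.range ((↑) : s → L))) (S := L)
    (M := ℂ)).restrictScalars K⟩

section coefficientwise

variable {K : Subfield ℂ} {n : ℕ} (l : ℂ →ₗ[K] K)

/-- a linear form applied to the coefficients -/
noncomputable def Lam (p : MvPolynomial (Fin n) ℂ) : MvPolynomial (Fin n) K :=
  ∑ m ∈ p.support, monomial m (l (coeff m p))

theorem coeff_Lam (p : MvPolynomial (Fin n) ℂ) (m : Fin n →₀ ℕ) :
    coeff m (Lam l p) = l (coeff m p) := by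
  classical
  unfold Lam
  rw [coeff_sum]
  simp only [coeff_monomial]
  rw [Finset.sum_ite_eq' p.support m]
  split_ifs with h
  · rfl
  · rw [notMem_support_iff.1 h, map_zero]

theorem Lam_add (p q : MvPolynomial (Fin n) ℂ) : Lam l (p + q) = Lam l p + Lam l q := by
  ext m
  rw [coeff_add, coeff_Lam, coeff_Lam, coeff_Lam, coeff_add, map_add]

theorem Lam_zero : Lam l (0 : MvPolynomial (Fin n) ℂ) = 0 := by
  ext m
  rw [coeff_Lam, coeff_zero, coeff_zero, map_zero]

theorem Lam_mul (f : MvPolynomial (Fin n) K) (q : MvPolynomial (Fin n) ℂ) :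
    Lam l (MvPolynomial.map K.subtype f * q) = f * Lam l q := by
  classical
  ext m
  rw [coeff_Lam, coeff_mul, coeff_mul, map_sum]
  refine congrArg _ (Finset.sum_congr rfl fun i _ => ?_)
  rw [coeff_map, coeff_Lam]
  have h : K.subtype (coeff i.1 f) * coeff i.2 q = (coeff i.1 f) • coeff i.2 q := rfl
  rw [h, map_smul, smul_eq_mul]

theorem Lam_mem {I : Ideal (MvPolynomial (Fin n) K)} {p : MvPolynomial (Fin n) ℂ}
    (hp : p ∈ I.map (MvPolynomial.map K.subtype)) : Lam l p ∈ I := by
  have h : ∀ q, Lam l (q * p) ∈ I := by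
    unfold Ideal.map Ideal.span at hp
    induction hp using Submodule.span_induction with
    | mem x hx =>
      obtain ⟨f, hf, rfl⟩ := hx
      intro q
      rw [mul_comm, Lam_mul]
      exact I.mul_mem_right _ hf
    | zero => intro q; rw [mul_zero, Lam_zero]; exact I.zero_mem
    | add x y _ _ hx hy => intro q; rw [mul_add, Lam_add]; exact I.add_mem (hx q) (hy q)
    | smul a x _ hx =>
      intro q
      rw [smul_eq_mul, ← mul_assoc]
      exact hx (q * a)
  have := h 1
  rwa [one_mul] at this

theorem Lam_C (c : ℂ) : Lam l (C c : MvPolynomial (Fin n) ℂ) = C (l c) := by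
  classical
  ext m
  rw [coeff_Lam, coeff_C, coeff_C]
  split_ifs
  · rfl
  · rw [map_zero]

end coefficientwise

/-- nonsquares stay nonsquares in the function field of a geometrically integral variety -/
theorem key {K : Subfield ℂ} {n : ℕ} {I : Ideal (MvPolynomial (Fin n) K)}
    (hJ : (I.map (MvPolynomial.map K.subtype)).IsPrime) {a : K} {r : ℂ} (hr : r ^ 2 = (a : ℂ))
    (hrK : r ∉ K) {G H : MvPolynomial (Fin n) K}
    (h : MvPolynomial.map K.subtype (G ^ 2 - C a * H ^ 2) ∈ I.map (MvPolynomial.map K.subtype)) :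
    H ∈ I := by
  -- a linear form
  have h1 : r ∉ Submodule.span K {(1 : ℂ)} := by
    intro h1
    obtain ⟨c, hc⟩ := Submodule.mem_span_singleton.1 h1
    refine hrK ?_
    rw [← hc]
    show (c : ℂ) * 1 ∈ K
    rw [mul_one]
    exact c.2
  obtain ⟨l, hl, hl1⟩ := Submodule.exists_le_ker_of_notMem h1
  have hl1 : l 1 = 0 := by
    have := hl1 (Submodule.mem_span_singleton_self (1 : ℂ))
    exact LinearMap.mem_ker.1 this
  have hfac : MvPolynomial.map K.subtype (G ^ 2 - C a * H ^ 2) =
      (MvPolynomial.map K.subtype G - C r * MvPolynomial.map K.subtype H) *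
        (MvPolynomial.map K.subtype G + C r * MvPolynomial.map K.subtype H) := by
    rw [map_sub, map_mul, map_pow, map_pow, map_C]
    have : (C (K.subtype a) : MvPolynomial (Fin n) ℂ) = C r ^ 2 := by
      rw [← C_pow, hr]
      rfl
    rw [this]
    ring
  have hfin : ∀ c : ℂ, (c = r ∨ c = -r) →
      (MvPolynomial.map K.subtype G - C c * MvPolynomial.map K.subtype H) ∈
        I.map (MvPolynomial.map K.subtype) → H ∈ I := by
    intro c hc h2
    have h3 := Lam_mem l h2
    have h4 : Lam l (MvPolynomial.map K.subtype G - C c * MvPolynomial.map K.subtype H) =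
        C (-(l c)) * H := by
      have e : MvPolynomial.map K.subtype G - C c * MvPolynomial.map K.subtype H =
          MvPolynomial.map K.subtype G * C 1 + MvPolynomial.map K.subtype H * C (-c) := by
        rw [C_1, C_neg]
        ring
      rw [e, Lam_add, Lam_mul, Lam_mul, Lam_C, Lam_C, hl1, C_0, mul_zero, zero_add, map_neg,
        mul_comm]
    rw [h4] at h3
    have h5 : -(l c) ≠ 0 := by
      rcases hc with rfl | rfl
      · exact neg_ne_zero.2 hl
      · rw [map_neg, neg_neg]
        exact hl
    have h6 := I.mul_mem_left (C (-(l c))⁻¹) h3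
    rwa [← mul_assoc, ← C_mul, inv_mul_cancel₀ h5, C_1, one_mul] at h6
  rw [hfac] at h
  rcases hJ.mem_or_mem h with h2 | h2
  · exact hfin r (Or.inl rfl) h2
  · refine hfin (-r) (Or.inr rfl) ?_
    rw [C_neg, neg_mul, sub_neg_eq_add]
    exact h2

/-- countable, and the rational squares in `K` are the squares of the rational numbers -/
def Good (K : Subfield ℂ) : Prop :=
  (K : Set ℂ).Countable ∧ ∀ q : ℚ, ∀ x ∈ K, x ^ 2 = (q : ℂ) → IsSquare q

/-- a system of polynomial equations -/
abbrev Sys : Type := Σ n : ℕ, Finset (MvPolynomial (Fin n) ℂ)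

/-- the coefficients lie in `K` -/
def Over (K : Subfield ℂ) (s : Sys) : Prop := ∀ p ∈ s.2, ∀ m, coeff m p ∈ K

/-- there is a solution in `K` -/
def Solved (K : Subfield ℂ) (s : Sys) : Prop :=
  ∃ x : Fin s.1 → ℂ, (∀ i, x i ∈ K) ∧ ∀ p ∈ s.2, eval x p = 0

/-- the system generates a prime ideal -/
def Pr (s : Sys) : Prop := (Ideal.span (s.2 : Set (MvPolynomial (Fin s.1) ℂ))).IsPrime

theorem over_map {K : Subfield ℂ} {n : ℕ} {p : MvPolynomial (Fin n) ℂ} (h : ∀ m, coeff m p ∈ K) :
    ∃ q : MvPolynomial (Fin n) K, MvPolynomial.map K.subtype q = p := by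
  refine ⟨∑ m ∈ p.support, monomial m ⟨coeff m p, h m⟩, ?_⟩
  rw [map_sum]
  simp only [map_monomial]
  exact p.support_sum_monomial_coeff

instance {n : ℕ} {K : Subfield ℂ} [Countable K] : Countable (MvPolynomial (Fin n) K) := by
  rw [← Cardinal.mk_le_aleph0_iff]
  refine MvPolynomial.cardinalMk_le_max.trans ?_
  simp

/-- the step with an abstract coordinate ring -/
theorem step_aux {K : Subfield ℂ} (hK : Good K) {n : ℕ} {I : Ideal (MvPolynomial (Fin n) K)}
    (hJ : (I.map (MvPolynomial.map K.subtype)).IsPrime) (A : Type) [CommRing A] [IsDomain A]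
    (π : MvPolynomial (Fin n) K →+* A) (hπ : Function.Surjective π)
    (hk : ∀ f, π f = 0 ↔ MvPolynomial.map K.subtype f ∈ I.map (MvPolynomial.map K.subtype)) :
    ∃ K' : Subfield ℂ, K ≤ K' ∧ Good K' ∧ ∃ x : Fin n → ℂ, (∀ i, x i ∈ K') ∧
      ∀ f ∈ I, eval x (MvPolynomial.map K.subtype f) = 0 := by
  classical
  letI : Algebra K A := (π.comp C).toAlgebra
  haveI : Countable K := hK.1.to_subtype
  haveI : Countable A := hπ.countable
  haveI : Countable (FractionRing A) := by
    rw [← Cardinal.mk_le_aleph0_iff]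
    refine (IsLocalization.cardinalMk_le (R := A) (L := FractionRing A)
      (nonZeroDivisors A)).trans ?_
    exact Cardinal.mk_le_aleph0
  obtain ⟨φ⟩ := embed K (FractionRing A)
  have hι : Function.Injective (algebraMap A (FractionRing A)) :=
    IsFractionRing.injective A (FractionRing A)
  have hCk : ∀ k : K, φ (algebraMap A (FractionRing A) (π (C k))) = (k : ℂ) := by
    intro k
    have h2 : π (C k) = algebraMap K A k := rfl
    rw [h2, ← IsScalarTower.algebraMap_apply K A (FractionRing A), φ.commutes]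
    rfl
  have hIP : ∀ f ∈ I, π f = 0 := fun f hf => (hk f).2 (Ideal.mem_map_of_mem _ hf)
  refine ⟨(φ : FractionRing A →+* ℂ).fieldRange, ?_, ⟨?_, ?_⟩, ?_⟩
  · intro k hk
    refine ⟨algebraMap K (FractionRing A) ⟨k, hk⟩, ?_⟩
    exact φ.commutes ⟨k, hk⟩
  · have : ((φ : FractionRing A →+* ℂ).fieldRange : Set ℂ) = Set.range φ := by
      ext x
      simp
    rw [this]
    exact Set.countable_range _
  · intro q x hx hxq
    obtain ⟨y, rfl⟩ := hx
    by_contra hq
    obtain ⟨r, hr⟩ := IsAlgClosed.exists_pow_nat_eq (q : ℂ) (n := 2) (by norm_num)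
    have hrK : r ∉ K := fun h => hq (hK.2 q r h hr)
    obtain ⟨g, h, hh, hy⟩ := IsFractionRing.div_surjective (A := A) y
    obtain ⟨G, rfl⟩ := hπ g
    obtain ⟨H, rfl⟩ := hπ h
    have hne : π H ≠ 0 := nonZeroDivisors.ne_zero hh
    have hne' : algebraMap A (FractionRing A) (π H) ≠ 0 :=
      fun h0 => hne (hι (h0.trans (map_zero _).symm))
    have hxq' : φ y ^ 2 = (q : ℂ) := hxq
    have e1 : algebraMap A (FractionRing A) (π G) ^ 2 =
        algebraMap A (FractionRing A) (π (C (q : K))) *
          algebraMap A (FractionRing A) (π H) ^ 2 := by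
      apply (φ : FractionRing A →+* ℂ).injective
      show φ _ = φ _
      rw [map_mul, map_pow, map_pow, hCk]
      rw [← hy, map_div₀, div_pow, div_eq_iff] at hxq'
      · rw [hxq']
        norm_cast
      · exact pow_ne_zero 2 ((map_ne_zero φ).2 hne')
    rw [← map_pow, ← map_pow, ← map_pow, ← map_pow, ← map_mul, ← map_mul] at e1
    have e3 := hι e1
    have e4 : π (G ^ 2 - C (q : K) * H ^ 2) = 0 := by
      rw [map_sub, e3, sub_self]
    have e5 : H ∈ I := by
      refine key hJ (a := (q : K)) (r := r) ?_ hrK ((hk _).1 e4)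
      rw [hr]
      norm_cast
    exact hne (hIP H e5)
  · refine ⟨fun i => φ (algebraMap A (FractionRing A) (π (X i))), fun i => ⟨_, rfl⟩, ?_⟩
    intro f hf
    have e : (eval (fun i => φ (algebraMap A (FractionRing A) (π (X i))))).comp
        (MvPolynomial.map K.subtype) =
        ((φ : FractionRing A →+* ℂ).comp (algebraMap A (FractionRing A))).comp
          π := by
      refine MvPolynomial.ringHom_ext (fun k => ?_) (fun i => ?_)
      · rw [RingHom.comp_apply, map_C, eval_C]
        exact (hCk k).symm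
      · rw [RingHom.comp_apply, map_X, eval_X]
        rfl
    have e' := RingHom.congr_fun e f
    refine e'.trans ?_
    show φ (algebraMap A (FractionRing A) (π f)) = 0
    rw [hIP f hf, map_zero, map_zero]


end Pool.Agent.X99.PAC
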