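import Pool.Agent.X99.PAC.A

/-!
# The countable field with points on all geometrically integral varieties
-/

set_option autoImplicit false
set_option linter.style.haveILetI false

open Cardinal MvPolynomial

namespace Pool.Agent.X99.PAC

theorem mk_surj {K : Subfield ℂ} {n : ℕ} (P : Ideal (MvPolynomial (Fin n) K)) :
    Function.Surjective (Ideal.Quotient.mk P) := Ideal.Quotient.mk_surjective

theorem step_P {K : Subfield ℂ} (hK : Good K) {n : ℕ} {I : Ideal (MvPolynomial (Fin n) K)}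
    (hJ : (I.map (MvPolynomial.map K.subtype)).IsPrime) (P : Ideal (MvPolynomial (Fin n) K))
    (_hP : P.IsPrime)
    (hm : ∀ f, f ∈ P ↔ MvPolynomial.map K.subtype f ∈ I.map (MvPolynomial.map K.subtype)) :
    ∃ K' : Subfield ℂ, K ≤ K' ∧ Good K' ∧ ∃ x : Fin n → ℂ, (∀ i, x i ∈ K') ∧
      ∀ f ∈ I, eval x (MvPolynomial.map K.subtype f) = 0 := by
  refine step_aux hK hJ (MvPolynomial (Fin n) K ⧸ P) (Ideal.Quotient.mk P) ?_ ?_
  · exact mk_surj P
  · intro f
    rw [← hm f]
    exact Ideal.Quotient.eq_zero_iff_mem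

/-- the step for an ideal -/
theorem step_ideal {K : Subfield ℂ} (hK : Good K) {n : ℕ} {I : Ideal (MvPolynomial (Fin n) K)}
    (hJ : (I.map (MvPolynomial.map K.subtype)).IsPrime) :
    ∃ K' : Subfield ℂ, K ≤ K' ∧ Good K' ∧ ∃ x : Fin n → ℂ, (∀ i, x i ∈ K') ∧
      ∀ f ∈ I, eval x (MvPolynomial.map K.subtype f) = 0 :=
  step_P hK hJ _ (Ideal.comap_isPrime (MvPolynomial.map K.subtype) _) fun _ => Ideal.mem_comap

theorem step {K : Subfield ℂ} (hK : Good K) {s : Sys} (ho : Over K s) (hp : Pr s) :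
    ∃ K' : Subfield ℂ, K ≤ K' ∧ Good K' ∧ Solved K' s := by
  classical
  obtain ⟨n, S⟩ := s
  have hI : (Ideal.span {q : MvPolynomial (Fin n) K | MvPolynomial.map K.subtype q ∈ S}).map
      (MvPolynomial.map K.subtype) = Ideal.span (S : Set (MvPolynomial (Fin n) ℂ)) := by
    rw [Ideal.map_span]
    congr 1
    ext p
    constructor
    · rintro ⟨q, hq, rfl⟩
      exact hq
    · intro hpS
      obtain ⟨q, hq⟩ := over_map (ho p hpS)
      exact ⟨q, by show MvPolynomial.map K.subtype q ∈ S; rw [hq]; exact hpS, hq⟩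
  have hJ : ((Ideal.span {q : MvPolynomial (Fin n) K | MvPolynomial.map K.subtype q ∈ S}).map
      (MvPolynomial.map K.subtype)).IsPrime := by rw [hI]; exact hp
  obtain ⟨K', h1, h2, x, h3, h4⟩ := step_ideal hK hJ
  refine ⟨K', h1, h2, x, h3, fun p hpS => ?_⟩
  obtain ⟨f, hf⟩ := over_map (ho p hpS)
  have h5 := h4 f (Ideal.subset_span (by show MvPolynomial.map K.subtype f ∈ S; rw [hf]; exact hpS))
  rwa [hf] at h5

theorem Over.mono {K K' : Subfield ℂ} (h : K ≤ K') {s : Sys} (ho : Over K s) : Over K' s :=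
  fun p hp m => h (ho p hp m)

theorem Solved.mono {K K' : Subfield ℂ} (h : K ≤ K') {s : Sys} (ho : Solved K s) : Solved K' s := by
  obtain ⟨x, h1, h2⟩ := ho
  exact ⟨x, fun i => h (h1 i), h2⟩

/-- the good fields -/
abbrev GF : Type := {K : Subfield ℂ // Good K}

theorem next_ex (K : GF) (s : Sys) : ∃ K' : GF, K.1 ≤ K'.1 ∧ (Over K.1 s → Pr s → Solved K'.1 s) := by
  by_cases h : Over K.1 s ∧ Pr s
  · obtain ⟨K', h1, h2, h3⟩ := step K.2 h.1 h.2
    exact ⟨⟨K', h2⟩, h1, fun _ _ => h3⟩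
  · exact ⟨K, le_rfl, fun h1 h2 => absurd ⟨h1, h2⟩ h⟩

/-- the union of a chain of good fields -/
theorem good_iSup (f : ℕ → GF) (hf : Monotone fun n => (f n).1) : Good (⨆ n, (f n).1) := by
  have hd : Directed (· ≤ ·) fun n => (f n).1 := hf.directed_le
  constructor
  · rw [Subfield.coe_iSup_of_directed hd]
    exact Set.countable_iUnion fun n => (f n).2.1
  · intro q x hx hq
    obtain ⟨n, hn⟩ := (Subfield.mem_iSup_of_directed hd).1 hx
    exact (f n).2.2 q x hn hq

theorem countable_over (K : GF) : {s : Sys | Over K.1 s}.Countable := by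
  classical
  haveI : Countable K.1 := K.2.1.to_subtype
  refine (Set.countable_range (fun t : Σ n : ℕ, Finset (MvPolynomial (Fin n) K.1) =>
    (⟨t.1, t.2.image (MvPolynomial.map K.1.subtype)⟩ : Sys))).mono ?_
  rintro ⟨n, S⟩ ho
  choose! g hg using fun (p : MvPolynomial (Fin n) ℂ) (hp : p ∈ S) => over_map (ho p hp)
  refine ⟨⟨n, S.image g⟩, ?_⟩
  show (⟨n, _⟩ : Sys) = ⟨n, S⟩
  congr 1
  rw [Finset.image_image]
  ext p
  rw [Finset.mem_image]
  constructor
  · rintro ⟨q, hq, rfl⟩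
    show MvPolynomial.map K.1.subtype (g q) ∈ S
    rw [hg q hq]
    exact hq
  · intro hp
    exact ⟨p, hp, hg p hp⟩

/-- all the systems over `K` are solved in a good extension -/
theorem next_all (K : GF) : ∃ K' : GF, K.1 ≤ K'.1 ∧ ∀ s, Over K.1 s → Pr s → Solved K'.1 s := by
  classical
  choose F hF1 hF2 using next_ex
  obtain ⟨e, he⟩ := Set.countable_iff_exists_subset_range.1 (countable_over K)
  let f : ℕ → GF := fun n => Nat.rec K (fun m L => F L (e m)) n
  have f0 : f 0 = K := rfl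
  have fs : ∀ m, f (m + 1) = F (f m) (e m) := fun m => rfl
  have hm : Monotone fun n => (f n).1 := monotone_nat_of_le_succ fun m => by
    show (f m).1 ≤ (f (m + 1)).1
    rw [fs]
    exact hF1 _ _
  refine ⟨⟨⨆ n, (f n).1, good_iSup f hm⟩, le_iSup (fun n => (f n).1) 0, fun s ho hp => ?_⟩
  obtain ⟨m, rfl⟩ := he ho
  have h1 : Over (f m).1 (e m) := Over.mono (hm (Nat.zero_le m)) ho
  have h2 := hF2 (f m) (e m) h1 hp
  rw [← fs] at h2
  exact h2.mono (le_iSup (fun n => (f n).1) (m + 1))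

theorem good_bot : Good (⊥ : Subfield ℂ) := by
  have hb : ∀ x ∈ (⊥ : Subfield ℂ), ∃ q : ℚ, (q : ℂ) = x := by
    intro x hx
    have h1 : (⊥ : Subfield ℂ) ≤ (algebraMap ℚ ℂ).fieldRange := bot_le
    obtain ⟨q, hq⟩ := h1 hx
    exact ⟨q, hq⟩
  constructor
  · refine (Set.countable_range (fun q : ℚ => (q : ℂ))).mono fun x hx => ?_
    exact hb x hx
  · intro q x hx hq
    obtain ⟨r, rfl⟩ := hb x hx
    refine ⟨r, ?_⟩
    have : ((r ^ 2 : ℚ) : ℂ) = (q : ℂ) := by rw [← hq]; norm_cast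
    have := Rat.cast_injective this
    rw [← this]
    ring

/-- **the field** -/
theorem exists_field : ∃ K : GF, ∀ s, Over K.1 s → Pr s → Solved K.1 s := by
  classical
  choose F hF1 hF2 using next_all
  let f : ℕ → GF := fun n => Nat.rec ⟨⊥, good_bot⟩ (fun _ L => F L) n
  have fs : ∀ m, f (m + 1) = F (f m) := fun m => rfl
  have hm : Monotone fun n => (f n).1 := monotone_nat_of_le_succ fun m => by
    show (f m).1 ≤ (f (m + 1)).1
    rw [fs]
    exact hF1 _
  have hd : Directed (· ≤ ·) fun n => (f n).1 := hm.directed_le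
  refine ⟨⟨⨆ n, (f n).1, good_iSup f hm⟩, fun s ho hp => ?_⟩
  -- the coefficients lie in one of the fields
  have h1 : ∃ m, Over (f m).1 s := by
    have h2 : ∀ p ∈ s.2, ∃ m, ∀ k, coeff k p ∈ (f m).1 := by
      intro p hp
      have h3 : ∀ k ∈ p.support, ∃ m, coeff k p ∈ (f m).1 := fun k _ =>
        (Subfield.mem_iSup_of_directed hd).1 (ho p hp k)
      choose! g hg using h3
      refine ⟨p.support.sup g, fun k => ?_⟩
      by_cases hk : k ∈ p.support
      · exact hm (Finset.le_sup hk) (hg k hk)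
      · rw [notMem_support_iff.1 hk]
        exact zero_mem _
    choose! g hg using h2
    exact ⟨s.2.sup g, fun p hp k => hm (Finset.le_sup hp) (hg p hp k)⟩
  obtain ⟨m, h2⟩ := h1
  have h3 := hF2 (f m) s h2 hp
  rw [← fs] at h3
  exact h3.mono (le_iSup (fun n => (f n).1) (m + 1))

end Pool.Agent.X99.PAC
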