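import Pool.Agent.X99.PAC.B

/-!
# The absolute Galois group is not topologically finitely generated
-/

set_option autoImplicit false
set_option linter.style.haveILetI false

open IntermediateField

namespace Pool.Agent.X99.PAC

theorem not_sq {p q : ℕ} (hp : p.Prime) (hq : q.Prime) (hne : p ≠ q) :
    ¬ IsSquare ((p : ℚ) * (q : ℚ)) := by
  intro h
  have h1 : IsSquare (((p * q : ℕ) : ℚ)) := by
    push_cast
    exact h
  rw [Rat.isSquare_natCast_iff] at h1
  obtain ⟨r, hr⟩ := h1
  have h2 : p ∣ r := by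
    have : p ∣ r * r := ⟨q, hr.symm⟩
    exact (hp.dvd_mul.1 this).elim id id
  obtain ⟨s, rfl⟩ := h2
  have h3 : q = s * (p * s) := by
    have : p * q = p * (s * (p * s)) := by rw [hr]; ring
    exact Nat.eq_of_mul_eq_mul_left hp.pos this
  have h4 : p ∣ q := ⟨s * s, by rw [h3]; ring⟩
  exact hne ((Nat.prime_dvd_prime_iff_eq hp hq).1 h4)

/-- no finite set generates the absolute Galois group of a good field topologically -/
theorem not_fg {K : Subfield ℂ} (hK : Good K)
    (T : Finset (Gal(SeparableClosure K / K))) :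
    (Subgroup.closure (T : Set Gal(SeparableClosure K / K))).topologicalClosure ≠ ⊤ := by
  classical
  intro htop
  have hex : ∀ p : Nat.Primes, ∃ α : SeparableClosure K, α ^ 2 = ((p : ℕ) : SeparableClosure K) := by
    intro p
    haveI : NeZero ((2 : ℕ) : SeparableClosure K) := ⟨by norm_num⟩
    exact IsSepClosed.exists_pow_nat_eq _ 2
  choose α hα using hex
  -- two primes with the same signs
  obtain ⟨p, q, hpq, hs⟩ := Finite.exists_ne_map_eq_of_infinite
    (fun (p : Nat.Primes) (σ : T) => (σ : Gal(SeparableClosure K / K)) (α p) = α p)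
  have hsign : ∀ (σ : Gal(SeparableClosure K / K)) (r : Nat.Primes), σ (α r) = α r ∨
      σ (α r) = -α r := by
    intro σ r
    have h1 : (σ (α r)) ^ 2 = (α r) ^ 2 := by
      rw [← map_pow, hα, map_natCast]
    exact sq_eq_sq_iff_eq_or_eq_neg.1 h1
  set y := α p * α q with hy
  have hfix : ∀ σ ∈ T, σ y = y := by
    intro σ hσ
    have h1 : (σ (α p) = α p) = (σ (α q) = α q) := congrFun hs ⟨σ, hσ⟩
    rw [hy, map_mul]
    rcases hsign σ p with h2 | h2
    · rw [h2, h1.mp h2]
    · rcases hsign σ q with h3 | h3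
      · rw [h1.mpr h3, h3]
      · rw [h2, h3, neg_mul_neg]
  have hcl : K⟮y⟯ ≤ fixedField (Subgroup.closure (T : Set Gal(SeparableClosure K / K))) := by
    rw [IntermediateField.adjoin_simple_le_iff, mem_fixedField_iff]
    intro σ hσ
    induction hσ using Subgroup.closure_induction with
    | mem x hx => exact hfix x hx
    | one => rfl
    | mul a b _ _ ha hb =>
      show a (b y) = y
      rw [hb, ha]
    | inv a _ ha =>
      have h1 : a⁻¹ (a y) = y := a.symm_apply_apply y
      rwa [ha] at h1
  have hle : (⊤ : Subgroup Gal(SeparableClosure K / K)) ≤ K⟮y⟯.fixingSubgroup := by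
    rw [← htop]
    refine Subgroup.topologicalClosure_minimal _ ((le_iff_le _ _).1 hcl) ?_
    exact InfiniteGalois.fixingSubgroup_isClosed K⟮y⟯
  have hy2 : ∀ σ : Gal(SeparableClosure K / K), σ y = y := by
    have h1 : K⟮y⟯ ≤ fixedField (⊤ : Subgroup Gal(SeparableClosure K / K)) := (le_iff_le _ _).2 hle
    rw [IntermediateField.adjoin_simple_le_iff, mem_fixedField_iff] at h1
    exact fun σ => h1 σ (Subgroup.mem_top σ)
  obtain ⟨k, hk⟩ := (InfiniteGalois.mem_range_algebraMap_iff_fixed (k := K) y).2 hy2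
  have hk2 : algebraMap K (SeparableClosure K) (k ^ 2) =
      algebraMap K (SeparableClosure K) (((p : ℕ) : K) * ((q : ℕ) : K)) := by
    rw [map_pow, hk, hy, mul_pow, hα, hα, map_mul, map_natCast, map_natCast]
  have hk3 := (algebraMap K (SeparableClosure K)).injective hk2
  have hk4 : (k : ℂ) ^ 2 = (((p : ℕ) : ℚ) * ((q : ℕ) : ℚ) : ℚ) := by
    have := congrArg (fun x : K => (x : ℂ)) hk3
    push_cast at this ⊢
    exact this
  exact not_sq p.2 q.2 (fun h => hpq (Subtype.ext h)) (hK.2 _ (k : ℂ) k.2 hk4)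

end Pool.Agent.X99.PAC
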