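import Pool.Agent.X99.PAC.B

/-!
# From systems of equations to algebras
-/

set_option autoImplicit false
set_option linter.style.haveILetI false

open MvPolynomial TensorProduct

namespace Pool.Agent.X99.PAC

theorem prime_of_domain {K : Subfield ℂ} {n : ℕ} {A : Type} [CommRing A] [Algebra K A]
    (π : MvPolynomial (Fin n) K →ₐ[K] A) (hπ : Function.Surjective π)
    (hd : IsDomain (ℂ ⊗[K] A)) :
    ((RingHom.ker π).map (MvPolynomial.map K.subtype)).IsPrime := by
  let θ : ℂ ⊗[K] MvPolynomial (Fin n) K →ₐ[K] ℂ ⊗[K] A :=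
    Algebra.TensorProduct.map (AlgHom.id K ℂ) π
  have h1 : (RingHom.ker θ).IsPrime := RingHom.ker_isPrime _
  have h2 : RingHom.ker θ = (RingHom.ker π).map (Algebra.TensorProduct.includeRight :
      MvPolynomial (Fin n) K →ₐ[K] ℂ ⊗[K] MvPolynomial (Fin n) K) :=
    Algebra.TensorProduct.lTensor_ker π hπ
  let e := MvPolynomial.algebraTensorAlgEquiv (σ := Fin n) K ℂ
  have h3 : (RingHom.ker π).map (MvPolynomial.map K.subtype) =
      (RingHom.ker θ).map (e : ℂ ⊗[K] MvPolynomial (Fin n) K →+* MvPolynomial (Fin n) ℂ) := by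
    rw [h2]
    show _ = Ideal.map _ (Ideal.map ((Algebra.TensorProduct.includeRight :
      MvPolynomial (Fin n) K →ₐ[K] ℂ ⊗[K] MvPolynomial (Fin n) K) :
        MvPolynomial (Fin n) K →+* ℂ ⊗[K] MvPolynomial (Fin n) K) _)
    rw [Ideal.map_map]
    congr 1
    refine RingHom.ext fun f => ?_
    show MvPolynomial.map K.subtype f = e (1 ⊗ₜ f)
    rw [MvPolynomial.algebraTensorAlgEquiv_tmul, one_smul]
    rfl
  rw [h3]
  exact Ideal.map_isPrime_of_equiv e.toRingEquiv

/-- a point of the algebra -/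
theorem ring_point {K : Subfield ℂ} (hK : ∀ s, Over K s → Pr s → Solved K s) {A : Type}
    [CommRing A] [Algebra K A] [Algebra.FiniteType K A] (hd : IsDomain (ℂ ⊗[K] A)) :
    Nonempty (A →ₐ[K] K) := by
  classical
  obtain ⟨n, π, hπ⟩ := Algebra.FiniteType.iff_quotient_mvPolynomial''.1
    (inferInstance : Algebra.FiniteType K A)
  obtain ⟨S, hS⟩ := (isNoetherianRing_iff_ideal_fg (MvPolynomial (Fin n) K)).1 inferInstance
    (RingHom.ker π)
  have hspan : Ideal.span ((S.image (MvPolynomial.map K.subtype) :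
      Finset (MvPolynomial (Fin n) ℂ)) : Set (MvPolynomial (Fin n) ℂ)) =
      (RingHom.ker π).map (MvPolynomial.map K.subtype) := by
    rw [← hS, Ideal.map_span, Finset.coe_image]
  have ho : Over K (⟨n, S.image (MvPolynomial.map K.subtype)⟩ : Sys) := by
    intro p hp m
    obtain ⟨q, -, rfl⟩ := Finset.mem_image.1 hp
    rw [coeff_map]
    exact (coeff m q).2
  have hp : Pr (⟨n, S.image (MvPolynomial.map K.subtype)⟩ : Sys) := by
    show (Ideal.span _).IsPrime
    rw [hspan]
    exact prime_of_domain π hπ hd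
  obtain ⟨x, hx1, hx2⟩ := hK _ ho hp
  let x' : Fin n → K := fun i => ⟨x i, hx1 i⟩
  have h1 : ∀ f : MvPolynomial (Fin n) K, ((aeval x' f : K) : ℂ) =
      eval x (MvPolynomial.map K.subtype f) := by
    intro f
    rw [eval_map, ← coe_eval₂Hom]
    have h2 : (K.subtype.comp ((aeval x' : MvPolynomial (Fin n) K →ₐ[K] K) :
        MvPolynomial (Fin n) K →+* K)) = eval₂Hom K.subtype x := by
      refine MvPolynomial.ringHom_ext (fun k => ?_) (fun i => ?_)
      · rw [RingHom.comp_apply, coe_eval₂Hom, eval₂_C]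
        show ((aeval x' (C k) : K) : ℂ) = _
        rw [aeval_C]
        rfl
      · rw [RingHom.comp_apply, coe_eval₂Hom, eval₂_X]
        show ((aeval x' (X i) : K) : ℂ) = _
        rw [aeval_X]
    exact RingHom.congr_fun h2 f
  have h3 : RingHom.ker π ≤ RingHom.ker (aeval x' : MvPolynomial (Fin n) K →ₐ[K] K) := by
    rw [← hS, Ideal.span_le]
    intro f hf
    rw [SetLike.mem_coe, RingHom.mem_ker]
    apply Subtype.ext
    rw [h1]
    exact hx2 _ (Finset.mem_image_of_mem _ hf)
  exact ⟨AlgHom.liftOfSurjective π hπ (aeval x') h3⟩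

end Pool.Agent.X99.PAC
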