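import Pool.Agent.X99.PAC.D

/-!
# Points of geometrically integral schemes
-/

set_option autoImplicit false
set_option linter.style.haveILetI false

open CategoryTheory CategoryTheory.Limits AlgebraicGeometry TensorProduct

namespace Pool.Agent.X99.PAC

/-- the base change of a nonempty affine open subscheme is the spectrum of a domain -/
theorem domain_of_geom {K : Subfield ℂ} {A : Type} [CommRing A] [Algebra K A] [Nontrivial A]
    {X : Scheme.{0}} (f : X ⟶ Spec (CommRingCat.of K)) (hf : GeometricallyIntegral f)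
    (i : Spec (CommRingCat.of A) ⟶ X) [IsOpenImmersion i]
    (hi : i ≫ f = Spec.map (CommRingCat.ofHom (algebraMap K A))) : IsDomain (ℂ ⊗[K] A) := by
  have h1 : IsPullback (Spec.map (CommRingCat.ofHom (Algebra.TensorProduct.includeRight :
      A →ₐ[K] ℂ ⊗[K] A).toRingHom))
      (Spec.map (CommRingCat.ofHom (algebraMap ℂ (ℂ ⊗[K] A))))
      (Spec.map (CommRingCat.ofHom (algebraMap K A)))
      (Spec.map (CommRingCat.ofHom (algebraMap K ℂ))) :=
    (isPullback_SpecMap_of_isPushout _ _ _ _
      (CommRingCat.isPushout_tensorProduct K ℂ A)).flip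
  rw [← hi] at h1
  have h2 : IsPullback (pullback.fst f (Spec.map (CommRingCat.ofHom (algebraMap K ℂ))))
      (pullback.snd f (Spec.map (CommRingCat.ofHom (algebraMap K ℂ)))) f
      (Spec.map (CommRingCat.ofHom (algebraMap K ℂ))) := IsPullback.of_hasPullback _ _
  have hint : IsIntegral (pullback f (Spec.map (CommRingCat.ofHom (algebraMap K ℂ)))) :=
    pullback_of_geometrically hf.geometrically_isIntegral ℂ _
  let j : Spec (CommRingCat.of (ℂ ⊗[K] A)) ⟶
      pullback f (Spec.map (CommRingCat.ofHom (algebraMap K ℂ))) :=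
    h2.lift (Spec.map (CommRingCat.ofHom (Algebra.TensorProduct.includeRight :
      A →ₐ[K] ℂ ⊗[K] A).toRingHom) ≫ i) (Spec.map (CommRingCat.ofHom (algebraMap ℂ (ℂ ⊗[K] A))))
      (by rw [Category.assoc]; exact h1.w)
  have h3 : IsPullback (Spec.map (CommRingCat.ofHom (Algebra.TensorProduct.includeRight :
      A →ₐ[K] ℂ ⊗[K] A).toRingHom)) j i
      (pullback.fst f (Spec.map (CommRingCat.ofHom (algebraMap K ℂ)))) := by
    have h4 : IsPullback (Spec.map (CommRingCat.ofHom (Algebra.TensorProduct.includeRight :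
      A →ₐ[K] ℂ ⊗[K] A).toRingHom)) (j ≫
        pullback.snd f (Spec.map (CommRingCat.ofHom (algebraMap K ℂ)))) (i ≫ f)
        (Spec.map (CommRingCat.ofHom (algebraMap K ℂ))) := by
      have : j ≫ pullback.snd f (Spec.map (CommRingCat.ofHom (algebraMap K ℂ))) =
          Spec.map (CommRingCat.ofHom (algebraMap ℂ (ℂ ⊗[K] A))) := h2.lift_snd _ _ _
      rw [this]
      exact h1
    refine IsPullback.of_bot h4 ?_ h2
    exact (h2.lift_fst _ _ _).symm
  have hj : IsOpenImmersion j := MorphismProperty.of_isPullback (P := @IsOpenImmersion) h3 ‹_›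
  have hne : Nonempty (Spec (CommRingCat.of (ℂ ⊗[K] A))) := by
    have : Nontrivial (ℂ ⊗[K] A) := by
      refine Algebra.TensorProduct.nontrivial_of_algebraMap_injective_of_flat_right K ℂ A ?_
      exact (algebraMap K ℂ).injective
    exact (inferInstance : Nonempty (PrimeSpectrum (ℂ ⊗[K] A)))
  have hint2 : IsIntegral (Spec (CommRingCat.of (ℂ ⊗[K] A))) := isIntegral_of_isOpenImmersion j
  exact (affine_isIntegral_iff (CommRingCat.of (ℂ ⊗[K] A))).1 hint2

end Pool.Agent.X99.PAC
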